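import Mathlib

/-!
# Powers mod 2 of the binary pattern-count matrices

`M_n` is the `N × N` matrix, `N = 2^(2^n)`, whose `(i, j)` entry (`1 ≤ i, j ≤ N`) is the number of
occurrences of the binary expansion of `j` as a block of consecutive digits in the binary expansion
of `i`. We prove `M_n ^ (2^n) ≡ I + E_{N,1}` modulo `2`.
-/

set_option autoImplicit false

namespace Pool.Agent.Results.MP_b7336c_co.PowerIdentity

/-- The binary expansion of `j`, most significant digit first, without leading zeros. -/
def bin (j : ℕ) : List ℕ := (Nat.digits 2 j).reverse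

/-- The number of occurrences (overlaps allowed) of the nonempty word `w` as a block of consecutive
letters of `u`: the number of positions `k` of `u` such that `w` is an initial segment of
`u` with the first `k` letters removed. -/
def occ (w u : List ℕ) : ℕ := ((Finset.range u.length).filter (fun k => w <+: u.drop k)).card

/-- The matrix `M_n`. Row and column indices `i, j : Fin (2^(2^n))` stand for the integers
`i + 1`, `j + 1` of the range `1, …, 2^(2^n)`. -/
def M (n : ℕ) : Matrix (Fin (2 ^ 2 ^ n)) (Fin (2 ^ 2 ^ n)) ℤ :=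
  fun i j => (occ (bin (j + 1)) (bin (i + 1)) : ℤ)

/-- The matrix `E_{N,1}`: its only nonzero entry is a `1` in row `N`, column `1`. -/
def E (n : ℕ) : Matrix (Fin (2 ^ 2 ^ n)) (Fin (2 ^ 2 ^ n)) ℤ :=
  fun i j => if (i : ℕ) + 1 = 2 ^ 2 ^ n ∧ (j : ℕ) + 1 = 1 then 1 else 0

lemma bin_length (j : ℕ) : (bin j).length = (Nat.digits 2 j).length := by simp [bin]

lemma bin_inj {i j : ℕ} (h : bin i = bin j) : i = j := by
  unfold bin at h
  exact Nat.digits_inj_iff.mp (List.reverse_injective h)

lemma bin_ne_nil {j : ℕ} (h : j ≠ 0) : bin j ≠ [] := by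
  unfold bin
  simpa using (Nat.digits_ne_nil_iff_ne_zero (b := 2)).mpr h

lemma occ_ne_zero {w u : List ℕ} (h : occ w u ≠ 0) : ∃ k < u.length, w <+: u.drop k := by
  unfold occ at h
  obtain ⟨k, hk⟩ := Finset.card_pos.mp (Nat.pos_of_ne_zero h)
  rw [Finset.mem_filter, Finset.mem_range] at hk
  exact ⟨k, hk⟩

/-- a factor of a word is shorter, unless it is the whole word -/
lemma occ_length {i j : ℕ} (hij : i ≠ j) (h : occ (bin j) (bin i) ≠ 0) :
    (bin j).length + 1 ≤ (bin i).length := by
  obtain ⟨k, hk, hp⟩ := occ_ne_zero h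
  have h1 := hp.length_le
  rw [List.length_drop] at h1
  rcases Nat.eq_zero_or_pos k with rfl | hk0
  · rw [List.drop_zero] at hp
    rcases Nat.lt_or_ge (bin j).length (bin i).length with h2 | h2
    · exact h2
    · exact absurd (bin_inj (hp.eq_of_length_le h2)).symm hij
  · omega

lemma occ_self {w : List ℕ} (hw : w ≠ []) : occ w w = 1 := by
  unfold occ
  have : (Finset.range w.length).filter (fun k => w <+: w.drop k) = {0} := by
    ext k
    rw [Finset.mem_filter, Finset.mem_range, Finset.mem_singleton]
    constructor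
    · rintro ⟨_, hp⟩
      have := hp.length_le
      rw [List.length_drop] at this
      have := List.length_pos_iff.mpr hw
      omega
    · rintro rfl
      exact ⟨List.length_pos_iff.mpr hw, by rw [List.drop_zero]⟩
  rw [this, Finset.card_singleton]

lemma bin_two_pow (t : ℕ) : bin (2 ^ t) = 1 :: List.replicate t 0 := by
  unfold bin
  have : Nat.digits 2 (2 ^ t) = List.replicate t 0 ++ [1] := by
    induction t with
    | zero => simp
    | succ t ih =>
      rw [pow_succ, mul_comm, Nat.digits_of_two_le_of_pos (by norm_num) (by positivity)]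
      rw [Nat.mul_mod_right, Nat.mul_div_cancel_left _ (by norm_num), ih]
      simp [List.replicate_succ]
  rw [this]
  simp

/-- the leading digit is `1` -/
lemma bin_head {j : ℕ} (h : j ≠ 0) : ∃ l, bin j = 1 :: l := by
  have hne := bin_ne_nil h
  obtain ⟨a, l, hl⟩ := List.exists_cons_of_ne_nil hne
  refine ⟨l, ?_⟩
  rw [hl]
  have h2 : Nat.digits 2 j = l.reverse ++ [a] := by
    have : (bin j).reverse = (a :: l).reverse := by rw [hl]
    unfold bin at this
    rw [List.reverse_reverse] at this
    rw [this]; simp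
  have h3 : a < 2 := by
    apply Nat.digits_lt_base (b := 2) (m := j) (by norm_num)
    rw [h2]; simp
  have h4 : a ≠ 0 := by
    have h5 := Nat.getLast_digit_ne_zero 2 h
    intro ha
    apply h5
    simp only [h2]
    simpa using ha
  congr 1
  omega

/-- factors of `1 0^(t+1)` of length `t + 1` with leading digit `1` -/
lemma occ_two_pow {t k : ℕ} (hk : k ≠ 0) (hlen : (bin k).length = t + 1) :
    occ (bin k) (bin (2 ^ (t + 1))) = if k = 2 ^ t then 1 else 0 := by
  obtain ⟨l, hl⟩ := bin_head hk
  unfold occ
  have hset : (Finset.range (bin (2 ^ (t + 1))).length).filter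
      (fun p => bin k <+: (bin (2 ^ (t + 1))).drop p) = if k = 2 ^ t then {0} else ∅ := by
    ext p
    rw [Finset.mem_filter, Finset.mem_range, bin_two_pow]
    split_ifs with hkt
    · rw [Finset.mem_singleton]
      constructor
      · rintro ⟨_, hp⟩
        by_contra hp0
        obtain ⟨q, rfl⟩ := Nat.exists_eq_succ_of_ne_zero hp0
        rw [List.drop_succ_cons, hl] at hp
        have hmem : (1 : ℕ) ∈ List.replicate (t + 1) 0 :=
          List.mem_of_mem_drop (hp.subset (by simp))
        have := List.eq_of_mem_replicate hmem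
        omega
      · rintro rfl
        refine ⟨by simp, ?_⟩
        rw [List.drop_zero, hkt, bin_two_pow]
        refine ⟨[0], ?_⟩
        rw [List.cons_append, List.replicate_succ']
    · simp only [Finset.notMem_empty, iff_false]
      rintro ⟨_, hp⟩
      rcases Nat.eq_zero_or_pos p with rfl | hp0
      · rw [List.drop_zero] at hp
        apply hkt
        apply bin_inj
        rw [bin_two_pow]
        have h1 := List.prefix_iff_eq_take.mp hp
        rw [hlen] at h1
        rw [h1, List.take_succ_cons, List.take_replicate]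
        simp
      · obtain ⟨q, rfl⟩ := Nat.exists_eq_succ_of_ne_zero (Nat.pos_iff_ne_zero.mp hp0)
        rw [List.drop_succ_cons, hl] at hp
        have hmem : (1 : ℕ) ∈ List.replicate (t + 1) 0 :=
          List.mem_of_mem_drop (hp.subset (by simp))
        have := List.eq_of_mem_replicate hmem
        omega
  rw [hset]
  split_ifs <;> simp

/-- `B = M - I` -/
def B (n : ℕ) : Matrix (Fin (2 ^ 2 ^ n)) (Fin (2 ^ 2 ^ n)) ℤ := M n - 1

lemma B_ne {n : ℕ} {i j : Fin (2 ^ 2 ^ n)} (h : B n i j ≠ 0) :
    (bin (j + 1)).length + 1 ≤ (bin (i + 1)).length := by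
  unfold B at h
  rw [Matrix.sub_apply] at h
  by_cases hij : i = j
  · subst hij
    exfalso
    apply h
    rw [Matrix.one_apply_eq]
    unfold M
    rw [occ_self (bin_ne_nil (by omega))]
    simp
  · rw [Matrix.one_apply_ne hij, sub_zero] at h
    unfold M at h
    apply occ_length
    · intro h'
      apply hij
      apply Fin.ext
      omega
    · exact_mod_cast h

lemma B_pow_ne {n : ℕ} (t : ℕ) : ∀ {i j : Fin (2 ^ 2 ^ n)}, (B n ^ t) i j ≠ 0 →
    (bin (j + 1)).length + t ≤ (bin (i + 1)).length := by
  induction t with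
  | zero =>
    intro i j h
    rw [pow_zero] at h
    by_cases hij : i = j
    · subst hij; simp
    · rw [Matrix.one_apply_ne hij] at h
      exact absurd rfl h
  | succ t ih =>
    intro i j h
    rw [pow_succ', Matrix.mul_apply] at h
    obtain ⟨k, _, hk⟩ := Finset.exists_ne_zero_of_sum_ne_zero h
    have h1 := B_ne (left_ne_zero_of_mul hk)
    have h2 := ih (right_ne_zero_of_mul hk)
    omega

lemma B_pow_val {n : ℕ} (t : ℕ) : ∀ {i j : Fin (2 ^ 2 ^ n)}, (i : ℕ) + 1 = 2 ^ t →
    (j : ℕ) + 1 = 1 → (B n ^ t) i j = 1 := by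
  induction t with
  | zero =>
    intro i j hi hj
    have : i = j := by
      apply Fin.ext
      rw [pow_zero] at hi
      omega
    subst this
    simp
  | succ t ih =>
    intro i j hi hj
    have hlt : 2 ^ t - 1 < 2 ^ 2 ^ n := by
      have h1 := i.isLt
      have h2 : 2 ^ (t + 1) = 2 * 2 ^ t := by ring
      have h3 : 0 < 2 ^ t := by positivity
      omega
    have hpos : 0 < 2 ^ t := by positivity
    rw [pow_succ', Matrix.mul_apply, Finset.sum_eq_single (⟨2 ^ t - 1, hlt⟩ : Fin (2 ^ 2 ^ n))]
    · rw [ih (by simp only; omega) hj, mul_one]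
      unfold B
      rw [Matrix.sub_apply, Matrix.one_apply_ne]
      · unfold M
        simp only
        rw [hi, Nat.sub_add_cancel hpos, occ_two_pow (t := t) (by omega)
          (by rw [bin_two_pow]; simp), if_pos rfl]
        simp
      · intro h'
        have := congrArg Fin.val h'
        simp only at this
        have h2 : 2 ^ (t + 1) = 2 * 2 ^ t := by ring
        omega
    · intro k _ hk
      by_contra hne
      have h1 := B_ne (left_ne_zero_of_mul hne)
      have h2 := B_pow_ne t (right_ne_zero_of_mul hne)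
      rw [hi, bin_two_pow] at h1
      rw [hj] at h2
      have h3 : (bin 1).length = 1 := by simp [bin]
      rw [h3] at h2
      simp only [List.length_cons, List.length_replicate] at h1
      have hlen : (bin ((k : ℕ) + 1)).length = t + 1 := by omega
      have h4 := left_ne_zero_of_mul hne
      unfold B at h4
      rw [Matrix.sub_apply] at h4
      have hik : i ≠ k := by
        intro h'
        subst h'
        rw [hi, bin_two_pow] at hlen
        simp at hlen
      rw [Matrix.one_apply_ne hik, sub_zero] at h4
      unfold M at h4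
      rw [hi, occ_two_pow (by omega) hlen] at h4
      have h5 : (k : ℕ) + 1 = 2 ^ t := by
        by_contra h'
        rw [if_neg h'] at h4
        exact h4 (by simp)
      apply hk
      apply Fin.ext
      simp only
      omega
    · intro h'
      exact absurd (Finset.mem_univ _) h'

lemma len_le {n : ℕ} (i : Fin (2 ^ 2 ^ n)) : (bin (i + 1)).length ≤ 2 ^ n + 1 ∧
    ((bin (i + 1)).length = 2 ^ n + 1 → (i : ℕ) + 1 = 2 ^ 2 ^ n) := by
  have hi := i.isLt
  rw [bin_length]
  constructor
  · have : (Nat.digits 2 ((i : ℕ) + 1)).length ≤ 2 ^ n + 1 := by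
      rw [Nat.digits_length_le_iff (by norm_num)]
      have : 2 ^ (2 ^ n + 1) = 2 * 2 ^ 2 ^ n := by ring
      omega
    exact this
  · intro h
    by_contra hne
    have : (Nat.digits 2 ((i : ℕ) + 1)).length ≤ 2 ^ n := by
      rw [Nat.digits_length_le_iff (by norm_num)]
      omega
    omega

lemma len_one {j : ℕ} (hj : j ≠ 0) (h : (bin j).length ≤ 1) : j = 1 := by
  rw [bin_length, Nat.digits_length_le_iff (by norm_num)] at h
  omega

lemma B_pow (n : ℕ) : B n ^ (2 ^ n) = E n := by
  ext i j
  unfold E
  split_ifs with h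
  · exact B_pow_val (2 ^ n) h.1 h.2
  · by_contra hne
    have h1 := B_pow_ne (2 ^ n) hne
    have h2 := len_le i
    have h3 : (bin ((j : ℕ) + 1)).length ≠ 0 := by
      rw [Ne, List.length_eq_zero_iff]
      exact bin_ne_nil (by omega)
    apply h
    refine ⟨h2.2 (by omega), ?_⟩
    exact len_one (by omega) (by omega)

/-- For every `n ≥ 1` one has `M_n ^ (2^n) ≡ I + E_{N,1}` modulo `2`, where `N = 2^(2^n)`. -/
theorem result : ∀ n : ℕ, 1 ≤ n → ∀ i j : Fin (2 ^ 2 ^ n),
    (M n ^ (2 ^ n)) i j ≡ (1 + E n) i j [ZMOD 2] := by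
  intro n _ i j
  refine (ZMod.intCast_eq_intCast_iff ((M n ^ (2 ^ n)) i j) ((1 + E n) i j) 2).mp ?_
  have hcast : ∀ A : Matrix (Fin (2 ^ 2 ^ n)) (Fin (2 ^ 2 ^ n)) ℤ,
      ((A i j : ℤ) : ZMod 2) = ((Int.castRingHom (ZMod 2)).mapMatrix A) i j := by
    intro A; rfl
  rw [← B_pow, hcast, hcast, map_pow, map_add, map_pow, map_one]
  have hM : M n = 1 + B n := by unfold B; abel
  rw [hM, map_add, map_one]
  haveI : Fact (Nat.Prime 2) := ⟨Nat.prime_two⟩
  rw [add_pow_char_pow_of_commute (p := 2) (n := n) (Commute.one_left _), one_pow]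

end Pool.Agent.Results.MP_b7336c_co.PowerIdentity
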